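import Pool.Agent.helper60.DB.SpecF

/-!
# bf, row PC: the principal case
-/

set_option autoImplicit false

namespace Pool.Agent.helper60.DB

open Polynomial Finset Pool.Agent.helper60.DK

theorem PC (h1 : M1_stmt) (h2 : MM_stmt) (h3 : LP_stmt) (h4 : LR_stmt) (h5 : KC_stmt) : PC_stmt := by
  intro R k _ _ _ _ p m _ _ q hL hp5 hpm A β B N e a b y w hy hw hB hq hN hβ hRP hK hp hodd hqπ hA hA0
  have hinj : Function.Injective (algebraMap R (FractionRing R)) :=
    IsFractionRing.injective R (FractionRing R)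
  haveI : CharZero (FractionRing R) := charZero_of_injective_algebraMap hinj
  set φ : R →+* FractionRing R := algebraMap R (FractionRing R) with hφ
  have hB0 : B ≠ 0 := by
    rintro rfl
    exact hB (dvd_zero _)
  have hBR : ((B : ℤ) : R) ≠ 0 := by exact_mod_cast hB0
  have hBK : φ ((B : ℤ) : R) ≠ 0 := by
    intro h
    exact hBR (hinj (h.trans (map_zero _).symm))
  have hdK : (φ A) ^ 2 ≠ 4 * φ ((B : ℤ) : R) := by
    intro h
    apply hq
    have h6 : A ^ 2 = 4 * ((B : ℤ) : R) := by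
      apply hinj
      rw [map_pow, map_mul, map_ofNat]
      exact h
    rw [h6, sub_self, map_zero]
  have hβK : (φ β) ^ 2 = -(N : FractionRing R) := by
    rw [← map_pow, hβ, map_neg, map_natCast]
  have hyK : Yy (φ A) (φ ((B : ℤ) : R)) (PowerSeries.map φ y) :=
    (h2 R (FractionRing R) φ A ((B : ℤ) : R) 1 y y y).2 hy
  obtain ⟨g', u', hM, hT, hH⟩ := h3 (FractionRing R) (φ A) (φ ((B : ℤ) : R)) (φ β) N e
    (PowerSeries.map φ y) hyK hBK hdK hN hβK hK a b
  have hπ : ((a : ℤ) : FractionRing R) + ((b : ℤ) : FractionRing R) * φ β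
      = φ (((a : ℤ) : R) + ((b : ℤ) : R) * β) := by
    rw [map_add, map_mul, map_intCast, map_intCast]
  rw [hπ] at hM
  have hRP1 : RP y A ((B : ℤ) : R) 1 := ⟨1, y, (h1 R A ((B : ℤ) : R) 1 y y y).1 hy⟩
  have hRPπ : RP y A ((B : ℤ) : R) (((a : ℤ) : R) + ((b : ℤ) : R) * β) := by
    have h6 := h4 R A ((B : ℤ) : R) 1 β y hRP1 hRP a b
    rwa [mul_one] at h6
  have hpR : ((p : ℕ) : R) = (a : R) ^ 2 + (N : R) * (b : R) ^ 2 := by
    have h6 : (((p : ℕ) : ℤ) : R) = (((a ^ 2 + N * b ^ 2 : ℤ)) : R) := by rw [hp]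
    push_cast at h6
    exact h6
  have hprod : (((a : ℤ) : R) + ((b : ℤ) : R) * β) * (((a : ℤ) : R) - ((b : ℤ) : R) * β) = (p : R) := by
    rw [hpR]
    linear_combination -(b : R) ^ 2 * hβ
  have hHp : Ht (PowerSeries.X * g' ^ 2) p := by
    have h6 : (a ^ 2 + (N : ℤ) * b ^ 2).toNat = p := by
      rw [← hp]
      exact Int.toNat_natCast p
    rwa [h6] at hH
  obtain ⟨z, hz⟩ := h5 R k p m q hL hp5 hpm A A (((a : ℤ) : R) + ((b : ℤ) : R) * β)
    (((a : ℤ) : R) - ((b : ℤ) : R) * β) B 1 y w g' u' (a + e * b) hy hw hRPπ hqπ hprod hB hq hM hodd hT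
    hHp (one_pow 2) (by rw [Int.cast_one, one_mul]; exact hA) hA0
  refine ⟨z, ?_⟩
  rw [Int.cast_one, one_mul] at hz
  exact hz

end Pool.Agent.helper60.DB
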