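import Pool.Agent.helper60.DB.SpecC

/-!
# bc, row PV: divisibility by `p` coefficientwise
-/

set_option autoImplicit false

namespace Pool.Agent.helper60.DB

open Polynomial Finset

theorem PV : PV_stmt := by
  intro R k _ _ p q hL
  constructor
  · intro f
    constructor
    · intro h
      have h1 : ∀ n, (p : R) ∣ PowerSeries.coeff n f := by
        intro n
        rw [← hL.ker]
        have h2 := congrArg (PowerSeries.coeff n) h
        rw [PowerSeries.coeff_map, map_zero] at h2
        exact h2
      choose c hc using h1
      refine ⟨PowerSeries.mk c, ?_⟩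
      ext n
      rw [PowerSeries.coeff_C_mul, PowerSeries.coeff_mk]
      exact hc n
    · rintro ⟨f', rfl⟩
      have h3 : q (p : R) = 0 := (hL.ker _).2 (dvd_refl _)
      rw [map_mul, PowerSeries.map_C, h3, map_zero, zero_mul]
  · intro f
    constructor
    · intro h
      have h1 : C (p : R) ∣ f := by
        rw [Polynomial.C_dvd_iff_dvd_coeff]
        intro n
        rw [← hL.ker]
        have h2 := congrArg (fun g => Polynomial.coeff g n) h
        simp only [Polynomial.coeff_map, Polynomial.coeff_zero] at h2
        exact h2
      exact h1
    · rintro ⟨f', rfl⟩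
      have h3 : q (p : R) = 0 := (hL.ker _).2 (dvd_refl _)
      rw [Polynomial.map_mul, Polynomial.map_C, h3, Polynomial.C_0, zero_mul]

end Pool.Agent.helper60.DB
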